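import Mathlib
import Pool.Agent.H71.Spex.Defs
import Pool.Agent.H71.Spex.Main

/-!
# MP_2bde17_co: the negated form of Q1

There is a tree `T` in the class with parameters `m = 9`, `l + 1 = 3`, `δ = 2` which is not
contained in the join of `l` isolated vertices with `m` disjoint copies of `S_δ`, and for which
`spex(n, T) ≤ f(δ - 1, n) - 1 / 4` for all large `n`; so `n |spex(n, T) - f(δ - 1, n)|` tends to
infinity.
-/

namespace Pool.Agent.Results.MP_2bde17_co.SpexDisproof

open Pool.Agent.H71.Spex SimpleGraph Filter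

theorem result :
    ∃ (m l δ : ℕ) (T : SimpleGraph (Fin m)), TreeClass m l δ T ∧
      ¬ T.IsContained (join (⊥ : SimpleGraph (Fin l)) (stars m δ)) ∧
      (∃ N : ℕ, ∀ n ≥ N, spex n T ≤ f l (δ - 1) n - 1 / 4) ∧
      Tendsto (fun n : ℕ => n * |spex n T - f l (δ - 1) n|) atTop atTop := by
  have h21 : (((2 : ℕ) : ℝ) - 1) = 1 := by norm_num
  have hmain : ∀ n ≥ 2000, spex n T9 ≤ f 2 (((2 : ℕ) : ℝ) - 1) n - 1 / 4 := by
    intro n hn
    rw [h21]
    exact spex_le n hn
  refine ⟨9, 2, 2, T9, T9_class, T9_not_contained, ⟨2000, hmain⟩, ?_⟩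
  have h1 : Tendsto (fun n : ℕ => (n : ℝ) / 4) atTop atTop :=
    tendsto_natCast_atTop_atTop.atTop_div_const (by norm_num)
  refine tendsto_atTop_mono' atTop ?_ h1
  filter_upwards [eventually_ge_atTop 2000] with n hn
  have h2 := hmain n hn
  have h3 : 1 / 4 ≤ |spex n T9 - f 2 (((2 : ℕ) : ℝ) - 1) n| := by
    rw [abs_sub_comm]
    refine le_trans ?_ (le_abs_self _)
    linarith
  have h4 : (0 : ℝ) ≤ n := Nat.cast_nonneg n
  have h5 := mul_le_mul_of_nonneg_left h3 h4
  calc (n : ℝ) / 4 = n * (1 / 4) := by ring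
    _ ≤ _ := h5

end Pool.Agent.Results.MP_2bde17_co.SpexDisproof
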